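import Pool.Agent.Lib.MP_8d185c_al.Final

/-!
The free nilpotent group of class three and any rank at least two has no independent basis of
quasiidentities relative to the class of torsion-free groups.
-/

namespace Pool.Agent.Results.MP_8d185c_al.NoIndependentBasis

universe u v

/-- `α` is a free generating set with at least two elements (of any cardinality); the group is
`F / γ₄(F)`, where `F` is free on `α` (the lower central series is indexed from `0`, so that its
term number `3` is `γ₄`). -/
theorem result {α : Type u} [Nontrivial α] :
    ¬ ∃ B : Set MP8d.QuasiIdentity, MP8d.IsIndependentBasis.{u, v} B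
      (FreeGroup α ⧸ (⊤ : Subgroup (FreeGroup α)).lowerCentralSeries 3) := by
  rintro ⟨B, hB⟩
  exact MP8d.main B hB

end Pool.Agent.Results.MP_8d185c_al.NoIndependentBasis
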